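import Pool.Graph.R_pool_sql_team_seeded_3997aac3.Helper104.CU.Bundle

set_option autoImplicit false

/-!
Residue classes of primes for which the `p`-curvatures of a flat bundle on a curve are nonzero.
-/

namespace Pool.Agent.H81.FB

open Pool.Agent.W432.PC Pool.Agent.Helper104.CU

universe u v w

variable {R : Type u} [CommRing R] {F : Type v} [Field F] [Algebra R F] {V : Type w}
  [AddCommGroup V] [Module F V]

/-- There is a nonzero `g` in `R` such that the `p`-curvature of `B` is nonzero at every closed point of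
`Spec R[1/g]` whose residue characteristic is a large prime `p` with `a p = -1` modulo `N`. -/
def BadClass (B : FlatBundle R F V) (N : ℕ) (a : ℤ) : Prop :=
  ∃ (g : R) (P₀ : ℕ), g ≠ 0 ∧ ∀ p : ℕ, p.Prime → P₀ < p → (N : ℤ) ∣ a * p + 1 →
    ∀ (𝔪 : Ideal R) [𝔪.IsMaximal], (p : R) ∈ 𝔪 → g ∉ 𝔪 → ¬ B.VanishesAt p 𝔪

/-- There are a set of at least `ε * φ(N)` residue classes modulo `N`, prime to `N`, and a nonzero `g` in
`R` such that the `p`-curvature of `B` is nonzero at every closed point of `Spec R[1/g]` whose residue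
characteristic is a large prime in one of these classes. -/
def BadClasses (B : FlatBundle R F V) (N : ℕ) (ε : ℝ) : Prop :=
  ∃ (S : Finset (ZMod N)ˣ) (g : R) (P₀ : ℕ), ε * N.totient ≤ S.card ∧ g ≠ 0 ∧
    ∀ p : ℕ, p.Prime → P₀ < p → (∃ v ∈ S, ((p : ℕ) : ZMod N) = ((v : (ZMod N)ˣ) : ZMod N)) →
      ∀ (𝔪 : Ideal R) [𝔪.IsMaximal], (p : R) ∈ 𝔪 → g ∉ 𝔪 → ¬ B.VanishesAt p 𝔪

variable [IsDomain R] [CharZero R] {B : FlatBundle R F V} {n r : ℕ} {α : Fin n → R}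
  {A : Fin n → Matrix (Fin r) (Fin r) R}

theorem badClass (hB : B.Contains α A) {N : ℕ} {a : ℤ}
    (h : ∃ P₀ : ℕ, ∀ p : ℕ, p.Prime → P₀ < p → (N : ℤ) ∣ a * p + 1 →
      ∀ (𝔪 : Ideal R) [𝔪.IsMaximal], (p : R) ∈ 𝔪 → ¬ PCurvZeroAt α A 𝔪) : BadClass B N a := by
  obtain ⟨g, hg, h1⟩ := hB.pcurv
  obtain ⟨P₀, h2⟩ := h
  exact ⟨g, P₀, hg, fun p hp hpP hap 𝔪 _ hpm hgm h3 => h2 p hp hpP hap 𝔪 hpm (h1 𝔪 hgm p hp hpm h3)⟩

theorem badClasses (hB : B.Contains α A) {N : ℕ} {ε : ℝ}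
    (h : ∃ (S : Finset (ZMod N)ˣ) (P₀ : ℕ), ε * N.totient ≤ S.card ∧
      ∀ p : ℕ, p.Prime → P₀ < p → (∃ v ∈ S, ((p : ℕ) : ZMod N) = ((v : (ZMod N)ˣ) : ZMod N)) →
        ∀ (𝔪 : Ideal R) [𝔪.IsMaximal], (p : R) ∈ 𝔪 → ¬ PCurvZeroAt α A 𝔪) : BadClasses B N ε := by
  obtain ⟨g, hg, h1⟩ := hB.pcurv
  obtain ⟨S, P₀, hS, h2⟩ := h
  exact ⟨S, g, P₀, hS, hg, fun p hp hpP hv 𝔪 _ hpm hgm h3 => h2 p hp hpP hv 𝔪 hpm
    (h1 𝔪 hgm p hp hpm h3)⟩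

/-- the hypothesis (H) fails if there is a bad class -/
theorem not_condH [Algebra.FiniteType ℤ R] (hB : B.Contains α A) (N : ℕ) (hN : 0 < N) (a : ℤ)
    (ha : IsCoprime a (N : ℤ))
    (h : ∃ P₀ : ℕ, ∀ p : ℕ, p.Prime → P₀ < p → (N : ℤ) ∣ a * p + 1 →
      ∀ (𝔪 : Ideal R) [𝔪.IsMaximal], (p : R) ∈ 𝔪 → ¬ PCurvZeroAt α A 𝔪) : ¬ B.CondH := by
  obtain ⟨P₀, hP⟩ := h
  exact fun hH => not_condII_of α A N hN a ha
    ⟨1, one_ne_zero, P₀, fun p hp hpP hap 𝔪 _ hpm _ => hP p hp hpP hap 𝔪 hpm⟩ (hB.condII hH)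

end Pool.Agent.H81.FB
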